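import Pool.Agent.H8.AV3.Stmts6
import Pool.Agent.H28.AV3B.LVB
import Pool.Agent.H15.AVS.LVF

/-!
# AV3C, module MED: few forms modulo `P²` have discriminant zero or no good point
-/

set_option autoImplicit false

namespace Pool.Agent.H75.AV3C

open Polynomial Matrix Pool.AVR Pool.AV3 Pool.Agent.H28.AV3B

section Core

variable {R k : Type} [CommRing R] [Field k]

open Classical in
theorem coreEq (hMAS : MAS3Stmt) (hNSH : NSHStmt) [Fintype R] [Finite k] (φ : R →+* k) (τ : R)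
    (h : Res φ τ) :
    ∑ c ∈ Finset.univ.filter (fun c : Fin 10 → R => ¬ dsc (Jc τ c) = 0), wl φ τ c =
      (((Nat.card k : ℝ) ^ 2 - 1) * ((Nat.card k : ℝ) ^ 3 - 1) / (Nat.card k : ℝ) ^ 5) *
        (Nat.card R : ℝ) ^ 7 *
        (Finset.univ.filter (fun f : R × R × R => ¬ dsc f = 0)).card := by
  have hk2 : 2 ≤ Nat.card k := by
    have := Finite.one_lt_card (α := k)
    omega
  have hk : (2 : ℝ) ≤ Nat.card k := by exact_mod_cast hk2
  set κ : ℝ := (Nat.card k : ℝ) with hκ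
  have hκ0 : 0 < κ := by linarith
  have hκ1 : 0 < κ - 1 := by linarith
  have hr0 : 0 < Nat.card R := Nat.card_pos
  have hr : (0 : ℝ) < Nat.card R := by exact_mod_cast hr0
  set r : ℝ := (Nat.card R : ℝ) with hrdef
  set T : Finset (Fin 10 → R) :=
    Finset.univ.filter (fun c : Fin 10 → R => ¬ dsc (Jc τ c) = 0) with hT
  set V : Finset (R × R × R) :=
    Finset.univ.filter (fun f : R × R × R => ¬ dsc f = 0) with hV
  set I : Finset ℕ := Finset.univ.image (fun f : R × R × R => nET f) with hI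
  have hI1 : ∀ f : R × R × R, nET f ∈ I := fun f =>
    Finset.mem_image_of_mem _ (Finset.mem_univ f)
  have h1 : ∑ c ∈ T, wl φ τ c =
      ∑ m ∈ I, ∑ c ∈ T with nET (Jc τ c) = m, wl φ τ c :=
    (Finset.sum_fiberwise_of_maps_to (fun c _ => hI1 (Jc τ c)) _).symm
  have h2 : V.card = ∑ m ∈ I, (V.filter (fun f => nET f = m)).card :=
    Finset.card_eq_sum_card_fiberwise (fun f _ => hI1 f)
  have h3 : ∀ m ∈ I, ∑ c ∈ T with nET (Jc τ c) = m, wl φ τ c =
      ((κ ^ 2 - 1) * (κ ^ 3 - 1) / κ ^ 5) * r ^ 7 * (V.filter (fun f => nET f = m)).card := by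
    intro m _
    have hA : ShInv {f : R × R × R | (¬ dsc f = 0) ∧ nET f = m} := by
      rintro f ⟨hf2, hf3⟩ η
      refine ⟨?_, ?_⟩
      · rw [dsc_sh]
        exact hf2
      · rw [hNSH]
        exact hf3
    have h4 := mas hMAS φ τ h _ hA
    simp only [Set.mem_ofPred_eq] at h4
    have h5 : ∑ f ∈ Finset.univ.filter
        (fun f : R × R × R => (¬ dsc f = 0) ∧ nET f = m),
          ((Nat.card k : ℝ) * nET f + Nat.card R) =
        (V.filter (fun f => nET f = m)).card * (κ * m + r) := by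
      rw [hV, Finset.filter_filter, ← nsmul_eq_mul, ← Finset.sum_const]
      refine Finset.sum_congr rfl (fun f hf => ?_)
      rw [Finset.mem_filter] at hf
      rw [hf.2.2]
    rw [h5] at h4
    have hden : 0 < κ * m + r := by positivity
    have h6 : ∑ c ∈ T with nET (Jc τ c) = m, wl φ τ c =
        (∑ c ∈ Finset.univ.filter
          (fun c : Fin 10 → R => (¬ dsc (Jc τ c) = 0) ∧ nET (Jc τ c) = m),
            (gdk (fun i => φ (c i)) : ℝ)) / ((κ - 1) * (κ * m / r + 1)) := by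
      rw [hT, Finset.filter_filter, Finset.sum_div]
      refine Finset.sum_congr rfl (fun c hc => ?_)
      rw [Finset.mem_filter] at hc
      unfold wl
      rw [if_neg hc.2.1, hc.2.2]
    rw [h6, div_eq_iff (by positivity)]
    have h7 : (∑ c ∈ Finset.univ.filter
          (fun c : Fin 10 → R => (¬ dsc (Jc τ c) = 0) ∧ nET (Jc τ c) = m),
            (gdk (fun i => φ (c i)) : ℝ)) = (κ - 1) * (κ ^ 2 - 1) * (κ ^ 3 - 1) * r ^ 6 *
              ((V.filter (fun f => nET f = m)).card * (κ * m + r)) / κ ^ 5 := by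
      rw [eq_div_iff (by positivity), mul_comm]
      exact h4
    rw [h7]
    field_simp
  rw [h1, Finset.sum_congr rfl h3, ← Finset.mul_sum, ← Nat.cast_sum, ← h2]

end Core

theorem dvd_iff {F : Type} [Field F] (P : F[X]) (N : ℕ) (c : Fin 10 → AdjoinRoot (P ^ N)) :
    P ^ N ∣ dsc (Jc (hf F) fun i => AVS.lft (c i)) ↔
      dsc (Jc (AdjoinRoot.mk (P ^ N) (hf F)) c) = 0 := by
  rw [Jc_lft P N c, ← AdjoinRoot.mk_eq_zero, ← dsc_map (AdjoinRoot.mk (P ^ N))]
  rfl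

theorem med_thm (hMAS : MAS3Stmt) (hNSH : NSHStmt) (hMDL : MDLStmt) (hDEL : DELStmt)
    (hDE5 : DE5Stmt) (hLN2 : LN2Stmt) : MEDStmt := by
  classical
  intro F _ _ h2 P hPm hPi
  have hfac : Fact (Irreducible P) := ⟨hPi⟩
  obtain ⟨hfinP, hcP⟩ := AVS.LVF.card_adj hPm
  obtain ⟨hfinN, hcN⟩ := AVS.LVF.card_adj (hPm.pow 2)
  rw [hPm.natDegree_pow] at hcN
  have hres := res_ph h2 P 2 one_le_two
  obtain ⟨hL2, -, hres2⟩ := (hLN2 F).1 P hPm hPi
  have hq1 : 1 < Nat.card F := Finite.one_lt_card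
  have hPd : P.natDegree ≠ 0 := hPi.natDegree_pos.ne'
  have h2N : IsUnit (2 : AdjoinRoot (P ^ 2)) := by
    have : IsUnit ((algebraMap F (AdjoinRoot (P ^ 2))) 2) := (isUnit_iff_ne_zero.mpr h2).map _
    rwa [map_ofNat] at this
  have hdens : 1 - 2 / (res (AdjoinRoot.mk (P ^ 2) P) : ℝ) ^ 2 ≤ dens (AdjoinRoot (P ^ 2)) := by
    by_cases h3 : (3 : F) = 0
    · refine hDEL (AdjoinRoot (P ^ 2)) (AdjoinRoot.mk (P ^ 2) P) hL2 ?_
      have : (algebraMap F (AdjoinRoot (P ^ 2))) 3 = 0 := by rw [h3, map_zero]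
      rwa [map_ofNat] at this
    · refine hDE5 (AdjoinRoot (P ^ 2)) (AdjoinRoot.mk (P ^ 2) P) hL2 h2N ?_
      have : IsUnit ((algebraMap F (AdjoinRoot (P ^ 2))) 3) := (isUnit_iff_ne_zero.mpr h3).map _
      rwa [map_ofNat] at this
  rw [hres2] at hdens
  set κ := Nat.card F ^ P.natDegree with hκ
  have hκ1 : 1 < κ := Nat.one_lt_pow hPd hq1
  have hcN' : Nat.card (AdjoinRoot (P ^ 2)) = κ ^ 2 := by
    rw [hcN, hκ, ← pow_mul, mul_comm]
  have hκr : (1 : ℝ) < κ := by exact_mod_cast hκ1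
  have hκ0 : (0 : ℝ) < κ := by linarith
  have := Fintype.ofFinite (AdjoinRoot (P ^ 2))
  set R := AdjoinRoot (P ^ 2) with hR
  set τ : R := AdjoinRoot.mk (P ^ 2) (hf F) with hτ
  set φ : R →+* AdjoinRoot P := ph P 2 one_le_two with hφ
  -- the cubics
  have hU : (κ : ℝ) ^ 6 - 2 * κ ^ 4 ≤
      (Finset.univ.filter (fun f : R × R × R => ¬ dsc f = 0)).card := by
    have hUc : {t : R × R × R | disc t.1 t.2.1 t.2.2 ≠ 0}.ncard =
        (Finset.univ.filter (fun f : R × R × R => ¬ dsc f = 0)).card := by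
      rw [← Set.ncard_coe_finset]
      congr 1
      ext t
      simp only [Finset.coe_filter, Finset.mem_univ, true_and]
      exact Iff.rfl
    rw [dens, hUc, hcN', le_div_iff₀ (by positivity)] at hdens
    push_cast at hdens
    have h3 : (1 - 2 / (κ : ℝ) ^ 2) * ((κ : ℝ) ^ 2) ^ 3 = (κ : ℝ) ^ 6 - 2 * κ ^ 4 := by
      field_simp
    rwa [h3] at hdens
  -- the weighted sum
  have hsum := coreEq hMAS hNSH (k := AdjoinRoot P) φ τ hres
  rw [hcP, hcN'] at hsum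
  push_cast at hsum
  -- the terms
  have hterm : ∀ c : Fin 10 → R, ¬ dsc (Jc τ c) = 0 →
      wl (k := AdjoinRoot P) φ τ c ≤ if gdk (fun i => φ (c i)) = 0 then 0 else 1 := by
    intro c hc
    by_cases hg : gdk (fun i => φ (c i)) = 0
    · rw [if_pos hg]
      unfold wl
      rw [hg, Nat.cast_zero, zero_div]
    · rw [if_neg hg]
      unfold wl
      rw [if_neg hc]
      have e1 := md_lft P 2 one_le_two c
      have e2 := Jc_lft P 2 c
      have hnd : ¬ P ^ 2 ∣ dsc (Jc (hf F) fun i => AVS.lft (c i)) := fun hd =>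
        hc ((dvd_iff P 2 c).1 hd)
      have h5 := hMDL F h2 P hPm hPi (fun i => AVS.lft (c i)) hnd
      rw [e1] at h5
      unfold Bw at h5
      rw [← e2] at h5
      have hkk : (1 : ℝ) < Nat.card (AdjoinRoot P) := by
        rw [hcP]
        exact_mod_cast hκ1
      have hrr : (0 : ℝ) < Nat.card R := by
        rw [hcN']
        positivity
      have hpos : (0 : ℝ) < ((Nat.card (AdjoinRoot P) : ℝ) - 1) *
          ((Nat.card (AdjoinRoot P) : ℝ) * nET (Jc τ c) / Nat.card R + 1) := by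
        apply mul_pos (by linarith)
        positivity
      rw [div_le_one hpos]
      exact h5
  have hbound : ∑ c ∈ Finset.univ.filter (fun c : Fin 10 → R => ¬ dsc (Jc τ c) = 0),
      wl (k := AdjoinRoot P) φ τ c ≤
      ((Finset.univ.filter (fun c : Fin 10 → R => ¬ dsc (Jc τ c) = 0 ∧
        ¬ gdk (fun i => φ (c i)) = 0)).card : ℝ) := by
    refine (Finset.sum_le_sum (fun c hc => hterm c (Finset.mem_filter.1 hc).2)).trans
      (le_of_eq ?_)
    rw [← Finset.filter_filter, Finset.card_filter]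
    push_cast
    refine Finset.sum_congr rfl (fun c _ => ?_)
    by_cases hg : gdk (fun i => φ (c i)) = 0
    · rw [if_pos hg, if_neg (not_not.2 hg)]
    · rw [if_neg hg, if_pos hg]
  -- the complement
  have hset : {c : Fin 10 → R | P ^ 2 ∣ dsc (Jc (hf F) fun i => AVS.lft (c i)) ∨
      gdk (md P fun i => AVS.lft (c i)) = 0} =
      {c : Fin 10 → R | ¬ (¬ dsc (Jc τ c) = 0 ∧ ¬ gdk (fun i => φ (c i)) = 0)} := by
    ext c
    have e1 := md_lft P 2 one_le_two c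
    have e3 : P ^ 2 ∣ dsc (Jc (hf F) fun i => AVS.lft (c i)) ↔ dsc (Jc τ c) = 0 :=
      dvd_iff P 2 c
    simp only [Set.mem_ofPred_eq]
    rw [e3, e1]
    tauto
  rw [hset, ncard_fin]
  set G := Finset.univ.filter (fun c : Fin 10 → R => ¬ dsc (Jc τ c) = 0 ∧
        ¬ gdk (fun i => φ (c i)) = 0) with hG
  have hcompl : (Finset.univ.filter (fun c : Fin 10 → R => ¬ (¬ dsc (Jc τ c) = 0 ∧
      ¬ gdk (fun i => φ (c i)) = 0))).card + G.card = κ ^ 20 := by
    rw [add_comm, hG, Finset.card_filter_add_card_filter_not, Finset.card_univ,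
      Fintype.card_pi_const, ← Nat.card_eq_fintype_card, hcN', ← pow_mul]
  have hGr : (κ : ℝ) ^ 20 - 4 * κ ^ 18 ≤ G.card := by
    refine le_trans ?_ hbound
    rw [hsum]
    have h5 : 0 ≤ ((κ : ℝ) ^ 2 - 1) * ((κ : ℝ) ^ 3 - 1) / (κ : ℝ) ^ 5 * ((κ : ℝ) ^ 2) ^ 7 := by
      have h6 : 0 ≤ (κ : ℝ) ^ 2 - 1 := by nlinarith
      have h7 : 0 ≤ (κ : ℝ) ^ 3 - 1 := by
        have := one_le_pow₀ (n := 3) hκr.le
        linarith
      positivity
    refine le_trans ?_ (mul_le_mul_of_nonneg_left hU h5)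
    have h8 : ((κ : ℝ) ^ 2 - 1) * ((κ : ℝ) ^ 3 - 1) / (κ : ℝ) ^ 5 * ((κ : ℝ) ^ 2) ^ 7 *
        ((κ : ℝ) ^ 6 - 2 * κ ^ 4) = (κ : ℝ) ^ 13 * (((κ : ℝ) ^ 2 - 1) * ((κ : ℝ) ^ 3 - 1) *
          ((κ : ℝ) ^ 2 - 2)) := by
      field_simp
    rw [h8, show (κ : ℝ) ^ 20 - 4 * κ ^ 18 = (κ : ℝ) ^ 13 * ((κ : ℝ) ^ 7 - 4 * κ ^ 5) by ring]
    apply mul_le_mul_of_nonneg_left _ (by positivity)
    nlinarith [pow_pos hκ0 3, pow_pos hκ0 2, pow_pos hκ0 4, pow_pos hκ0 5,
      mul_pos (pow_pos hκ0 4) (sub_pos.2 hκr), mul_pos (pow_pos hκ0 3) (sub_pos.2 hκr)]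
  have hfin : ((Finset.univ.filter (fun c : Fin 10 → R => ¬ (¬ dsc (Jc τ c) = 0 ∧
      ¬ gdk (fun i => φ (c i)) = 0))).card : ℝ) ≤ 4 * (κ : ℝ) ^ 18 := by
    have h9 : (((Finset.univ.filter (fun c : Fin 10 → R => ¬ (¬ dsc (Jc τ c) = 0 ∧
      ¬ gdk (fun i => φ (c i)) = 0))).card + G.card : ℕ) : ℝ) = ((κ ^ 20 : ℕ) : ℝ) := by
      rw [hcompl]
    push_cast at h9
    linarith
  have h18 : Nat.card F ^ (18 * P.natDegree) = κ ^ 18 := by rw [hκ, ← pow_mul, mul_comm]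
  rw [h18]
  exact_mod_cast hfin

end Pool.Agent.H75.AV3C
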