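import Pool.Agent.H8.AV3.Stmts7

/-!
# AV3C, module SQS: a squarefree specialisation
-/

set_option autoImplicit false

namespace Pool.Agent.H75.AV3C

open Polynomial Matrix Pool.AVR Pool.AV3

/-- The discriminant for the special form, characteristic different from three. -/
theorem dw_one {K : Type} [Field K] (τ u : K) (hτ : 2 * τ = 1) :
    DW τ ![1, 0, 0, 0, 0, u, 1, 0, 0, 1] = C (-τ ^ 4) * ((X ^ 3) ^ 3 -
      (C (u ^ 3) - 81) * (X ^ 3) ^ 2 - (540 * C (u ^ 3) - 2187) * X ^ 3 +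
      27 * (4 * C (u ^ 3) + 27) ^ 2) := by
  have h : 2 * C τ = (1 : K[X]) := by
    rw [← C_ofNat, ← C_mul, hτ, C_1]
  have e0 : Function.update (fun i => C ((![1, 0, 0, 0, 0, u, 1, 0, 0, 1] : Fin 10 → K) i)) 4 X =
      ![1, 0, 0, 0, X, C u, 1, 0, 0, 1] := by
    funext i
    fin_cases i <;> simp
  unfold DW
  rw [e0]
  simp only [dsc, Jc, jb4, jb6, disc, Matrix.cons_val, C_neg, C_pow]
  generalize C τ = t at h
  generalize C u = v
  generalize (X : K[X]) = w
  linear_combination (8 * t ^ 7 * v ^ 3 * w ^ 6 - 8 * t ^ 7 * w ^ 9 + 4 * t ^ 6 * v ^ 3 * w ^ 6 -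
    4 * t ^ 6 * w ^ 9 + 2 * t ^ 5 * v ^ 3 * w ^ 6 - 2 * t ^ 5 * w ^ 9 + t ^ 4 * v ^ 3 * w ^ 6 -
    t ^ 4 * w ^ 9 + 54 * t ^ 7 * w ^ 6 + 27 * t ^ 6 * w ^ 6 + 54 * t ^ 5 * w ^ 6 -
    324 * t ^ 4 * v ^ 3 * w ^ 3 + 351 * t ^ 4 * w ^ 6 - 2187 * t ^ 4 * w ^ 3 +
    2916 * t ^ 3 * w ^ 3) * h

/-- The discriminant for the special form in characteristic three. -/
theorem dw_two {K : Type} [Field K] (h3 : (3 : K) = 0) :
    DW (2 : K)⁻¹ ![1, 0, 0, 1, 0, 2, 1, 0, 2, 1] =
      X + 2 * X ^ 3 + X ^ 4 + X ^ 7 + X ^ 8 + 2 * X ^ 9 := by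
  have h : (3 : K[X]) = 0 := by
    rw [← C_ofNat, h3, C_0]
  have h2 : (2 : K)⁻¹ = 2 := by
    apply inv_eq_of_mul_eq_one_right
    linear_combination h3
  have e0 : Function.update (fun i => C ((![1, 0, 0, 1, 0, 2, 1, 0, 2, 1] : Fin 10 → K) i)) 4 X =
      ![1, 0, 0, 1, X, 2, 1, 0, 2, 1] := by
    have e2 : (C (2 : K) : K[X]) = 2 := C_ofNat 2
    funext i
    fin_cases i <;> simp [e2]
  unfold DW
  rw [e0, h2, C_ofNat]
  simp only [dsc, Jc, jb4, jb6, disc, Matrix.cons_val]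
  generalize (X : K[X]) = w
  linear_combination (-1366 * w ^ 9 + 5461 * w ^ 8 + 7509 * w ^ 7 + 19648 * w ^ 6 -
    36864 * w ^ 5 - 24811 * w ^ 4 - 38262 * w ^ 3 - 92496 * w ^ 2 - 336395 * w - 625936) * h

theorem sqs_thm : SQSStmt := by
  intro F _ h2
  by_cases h3 : (3 : F) = 0
  · refine ⟨F, inferInstance, RingHom.id F, ![1, 0, 0, 1, 0, 2, 1, 0, 2, 1], ?_⟩
    rw [dw_two h3]
    constructor
    · compute_degree!
    · have h : (3 : F[X]) = 0 := by
        rw [← C_ofNat, h3, C_0]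
      have hd : derivative (X + 2 * X ^ 3 + X ^ 4 + X ^ 7 + X ^ 8 + 2 * X ^ 9 : F[X]) =
          1 + X ^ 3 + X ^ 6 + 2 * X ^ 7 := by
        simp only [derivative_add, derivative_mul, derivative_X_pow, derivative_X,
          derivative_ofNat]
        simp only [map_natCast]
        push_cast
        linear_combination (6 * X ^ 8 + 2 * X ^ 7 + 2 * X ^ 6 + X ^ 3 + 2 * X ^ 2) * h
      rw [hd]
      refine ⟨2 * X ^ 4 + 2 * X ^ 2 + 2, X ^ 6 + 2 * X ^ 3 + X + 1, ?_⟩
      linear_combination (2 * X ^ 13 + X ^ 12 + 2 * X ^ 11 + 2 * X ^ 10 + 3 * X ^ 9 + 2 * X ^ 8 +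
        3 * X ^ 7 + 2 * X ^ 6 + 2 * X ^ 5 + X ^ 4 + 3 * X ^ 3 + X) * h
  · refine ⟨RatFunc F, inferInstance, algebraMap F (RatFunc F),
      ![1, 0, 0, 0, 0, RatFunc.X, 1, 0, 0, 1], ?_⟩
    have inj := RatFunc.algebraMap_injective F
    have hm : ∀ a : F, a ≠ 0 → algebraMap F (RatFunc F) a ≠ 0 := fun a ha =>
      (map_ne_zero (algebraMap F (RatFunc F))).2 ha
    have h2' : (2 : RatFunc F) ≠ 0 := by
      have := hm 2 h2
      rwa [map_ofNat] at this
    have h3' : (3 : RatFunc F) ≠ 0 := by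
      have := hm 3 h3
      rwa [map_ofNat] at this
    have hτ : 2 * (2 : RatFunc F)⁻¹ = 1 := mul_inv_cancel₀ h2'
    rw [dw_one _ _ hτ]
    set v : RatFunc F := RatFunc.X ^ 3 with hv
    have hv0 : v ≠ 0 := pow_ne_zero _ RatFunc.X_ne_zero
    have h4 : (4 : F) ≠ 0 := by
      have : (4 : F) = 2 * 2 := by norm_num
      rw [this]
      exact mul_ne_zero h2 h2
    have hlin : ∀ a : F, 4 * v + algebraMap F (RatFunc F) a ≠ 0 := by
      intro a h0
      have h5 : algebraMap F[X] (RatFunc F) (4 * X ^ 3 + C a) = 0 := by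
        rw [map_add, map_mul, map_pow, RatFunc.algebraMap_X, RatFunc.algebraMap_C, map_ofNat]
        exact h0
      have h6 : (4 * X ^ 3 + C a : F[X]) = 0 := (map_eq_zero_iff _ inj).1 h5
      have h7 := congrArg (fun p : F[X] => p.coeff 3) h6
      simp only [coeff_add, coeff_zero] at h7
      rw [← C_ofNat, coeff_C_mul, coeff_X_pow, if_pos rfl, coeff_C, if_neg (by norm_num),
        mul_one, add_zero] at h7
      exact h4 h7
    have ha : 4 * v + 27 ≠ 0 := by
      have := hlin 27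
      rwa [map_ofNat] at this
    have hb : 4 * v - 729 ≠ 0 := by
      have := hlin (-729)
      rw [map_neg, map_ofNat, ← sub_eq_add_neg] at this
      exact this
    have hτ4 : -(2 : RatFunc F)⁻¹ ^ 4 ≠ 0 := neg_ne_zero.2 (pow_ne_zero _ (inv_ne_zero h2'))
    have hu : IsUnit (C (-(2 : RatFunc F)⁻¹ ^ 4) : (RatFunc F)[X]) :=
      isUnit_C.2 (isUnit_iff_ne_zero.2 hτ4)
    set D : (RatFunc F)[X] := (X ^ 3) ^ 3 - (C v - 81) * (X ^ 3) ^ 2 -
      (540 * C v - 2187) * X ^ 3 + 27 * (4 * C v + 27) ^ 2 with hD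
    constructor
    · rw [natDegree_C_mul hτ4, hD]
      have e : ((X ^ 3) ^ 3 - (C v - 81) * (X ^ 3) ^ 2 -
        (540 * C v - 2187) * X ^ 3 + 27 * (4 * C v + 27) ^ 2 : (RatFunc F)[X]) =
        X ^ 9 + C (81 - v) * X ^ 6 + C (2187 - 540 * v) * X ^ 3 + C (27 * (4 * v + 27) ^ 2) := by
        simp only [C_sub, C_mul, C_add, C_pow, C_ofNat]
        ring
      rw [e]
      compute_degree!
    · rw [derivative_C_mul, isCoprime_mul_unit_left hu]
      have hd : derivative D = C 3 * (X ^ 2 * (3 * (X ^ 3) ^ 2 - 2 * (C v - 81) * X ^ 3 -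
          (540 * C v - 2187))) := by
        have e : D =
          X ^ 9 + C (81 - v) * X ^ 6 + C (2187 - 540 * v) * X ^ 3 +
            C (27 * (4 * v + 27) ^ 2) := by
          rw [hD]
          simp only [C_sub, C_mul, C_add, C_pow, C_ofNat]
          ring
        rw [e]
        simp only [derivative_add, derivative_mul, derivative_X_pow, derivative_C]
        simp only [C_sub, C_mul, C_ofNat, map_natCast]
        push_cast
        ring
      rw [hd]
      apply IsCoprime.mul_right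
      · exact isCoprime_one_right.of_isCoprime_of_dvd_right
          (isUnit_iff_dvd_one.1 (isUnit_C.2 (isUnit_iff_ne_zero.2 h3')))
      apply IsCoprime.mul_right
      · apply IsCoprime.pow_right
        have hc : IsUnit (C (27 * (4 * v + 27) ^ 2) : (RatFunc F)[X]) := by
          apply isUnit_C.2
          apply isUnit_iff_ne_zero.2
          apply mul_ne_zero _ (pow_ne_zero _ ha)
          have : (27 : RatFunc F) = 3 ^ 3 := by norm_num
          rw [this]
          exact pow_ne_zero _ h3'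
        obtain ⟨s, hs⟩ := isUnit_iff_exists_inv'.1 hc
        refine ⟨s, -s * (X ^ 8 - (C v - 81) * X ^ 5 - (540 * C v - 2187) * X ^ 2), ?_⟩
        rw [hD]
        rw [← hs]
        simp only [C_mul, C_add, C_pow, C_ofNat]
        ring
      · have hc : IsUnit (C (27 * v * (4 * v - 729) ^ 3) : (RatFunc F)[X]) := by
          apply isUnit_C.2
          apply isUnit_iff_ne_zero.2
          apply mul_ne_zero (mul_ne_zero _ hv0) (pow_ne_zero _ hb)
          have : (27 : RatFunc F) = 3 ^ 3 := by norm_num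
          rw [this]
          exact pow_ne_zero _ h3'
        obtain ⟨s, hs⟩ := isUnit_iff_exists_inv'.1 hc
        refine ⟨-s * (6 * X ^ 3 * C v - 4 * C v ^ 2 + 8748 * X ^ 3 + 4536 * C v + 767637),
          -s * (2 * X ^ 3 * C v ^ 2 - 2 * (X ^ 3) ^ 2 * C v - 594 * X ^ 3 * C v -
            2916 * (X ^ 3) ^ 2 + 1836 * C v ^ 2 - 334611 * X ^ 3 + 989253 * C v - 6908733), ?_⟩
        rw [hD]
        rw [← hs]
        simp only [C_mul, C_sub, C_pow, C_ofNat]
        ring

end Pool.Agent.H75.AV3C
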